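import Pool.Agent.X278.WI.Faithful
import Pool.Agent.X278.WI.Laurent

/-!
# MP_f251f6_al, Q1: the zero ideal of `U(W)` is primitive

`W` is the Lie algebra of the derivations of the Laurent polynomials `k[t, t⁻¹]` over a field of
characteristic `0`. Its enveloping algebra has a simple module with zero annihilator, hence every
proper prime ideal contains a primitive ideal.
-/

set_option autoImplicit false

namespace Pool.Agent.Results.MP_f251f6_al.ZeroIsPrimitive

open Pool.Agent.X278.WI

/-- The enveloping algebra of the Witt algebra. -/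
abbrev UW (k : Type) [Field k] : Type := UniversalEnvelopingAlgebra k (Witt k)

/-- Prime two-sided ideals: `P ≠ R`, and `I J ⊆ P` implies `I ⊆ P` or `J ⊆ P`. -/
def IsPrimeIdeal {R : Type} [Ring R] (P : TwoSidedIdeal R) : Prop :=
  P ≠ ⊤ ∧ ∀ I J : TwoSidedIdeal R, (∀ x ∈ I, ∀ y ∈ J, x * y ∈ P) → I ≤ P ∨ J ≤ P

/-- The enveloping algebra `U(W)` of the Witt algebra over a field of characteristic `0` has a
simple left module with zero annihilator; in particular, every proper prime ideal `P` of `U(W)`
contains the annihilator of a simple left module. -/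
theorem result (k : Type) [Field k] [CharZero k] :
    (∃ (M : Type) (_ : AddCommGroup M) (_ : Module (UW k) M),
      IsSimpleModule (UW k) M ∧ ∀ u : UW k, (∀ m : M, u • m = 0) → u = 0) ∧
    ∀ P : TwoSidedIdeal (UW k), IsPrimeIdeal P →
      ∃ (M : Type) (_ : AddCommGroup M) (_ : Module (UW k) M),
        IsSimpleModule (UW k) M ∧ ∀ u : UW k, (∀ m : M, u • m = 0) → u ∈ P := by
  have h := exists_faithful (wb k) (wb_lie k)
  refine ⟨h, fun P _ => ?_⟩
  obtain ⟨M, i1, i2, h1, h2⟩ := h
  refine ⟨M, i1, i2, h1, fun u hu => ?_⟩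
  rw [h2 u hu]
  exact P.zero_mem

end Pool.Agent.Results.MP_f251f6_al.ZeroIsPrimitive
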